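import Pool.Agent.Q17.TP.Fin

/-!
# The Knörr-Robinson conjecture and characters over an invariant character

`N` is a normal subgroup of the finite group `G` and `θ` is an irreducible character of `N` which is
invariant under `G`, of `p`-power degree and with determinant of `p`-power order (this holds for every
irreducible character if `N` is a `p`-group). The Knörr-Robinson sum of `G / N` can be computed from
the characters over `θ` of the stabilisers in `G` of the chains of `p`-subgroups of `G / N`, and only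
the characters with values fixed by a suitable field automorphism matter.

From `Pool.Agent.Q17.TP.Stm`: `GS ⊤ N σ` is the stabiliser `G_σ` in `G` of the chain `σ` (the set of the
members `≠ 1`) of `p`-subgroups of `G / N`; `altQ p ⊤ N w` is the sum of the `(-1) ^ |σ| * w σ` over
representatives `σ` of the classes of these chains (the empty one included); `OvS N θ ψ`: the
character `ψ` of `G_σ` lies over `θ`; `InvG ⊤ N θ`: `θ` is invariant under `G`; `PSpec p θ`: `θ` is
irreducible, of `p`-power degree and with determinant of `p`-power order.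
-/

open scoped Classical
open Pool.Agent.H254R3.IN Pool.Agent.Q17.TP
open Pool.Agent.Y63.KR (chi2 KRC)
open Pool.Agent.Y63.AWC (numDefectZero)

noncomputable section

namespace Pool.Agent.Results.MP_b6945b_al.CharacterTriples

/-- The number of the irreducible characters of `G_σ` over `θ` with values fixed by `s`. -/
def numOver {G : Type} [Group G] (N : Subgroup G) [N.Normal] (θ : N → ℂ) (s : ℂ ≃+* ℂ)
    (σ : Set (Subgroup (G ⧸ N))) : ℕ :=
  Nat.card {ψ : GS ⊤ N σ → ℂ // IsIrr ψ ∧ OvS N θ ψ ∧ ∀ x, s (ψ x) = ψ x}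

theorem num_eq {G : Type} [Group G] (N : Subgroup G) [N.Normal] (θ : N → ℂ) (s : ℂ ≃+* ℂ)
    (σ : Set (Subgroup (G ⧸ N))) : numOver N θ s σ = wQ ⊤ N θ 1 s σ := by
  unfold numOver wQ
  refine Nat.card_congr (Equiv.subtypeEquivRight fun ψ => ?_)
  refine and_congr_right fun h1 => and_congr_right fun _ => ?_
  constructor
  · intro h
    refine ⟨1, Subgroup.mem_top _, Subgroup.one_mem _, fun x y hxy => ?_⟩
    have : y = x := Subtype.ext (by rw [hxy, one_mul, inv_one, mul_one])
    rw [this]
    exact h x
  · rintro ⟨t, -, h2, h3⟩ x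
    have ht : t ∈ GS ⊤ N σ := Subgroup.mem_inf.mpr ⟨Subgroup.mem_top _, h2⟩
    have h4 := h3 x (⟨t, ht⟩ * x * ⟨t, ht⟩⁻¹) rfl
    rwa [h1.conj] at h4

/-- **Theorem.** Let `N` be a normal subgroup of the finite group `G` and `θ` a `G`-invariant
irreducible character of `N` of `p`-power degree and with determinant of `p`-power order. Let `s` be
an automorphism of `ℂ` which fixes the values of `θ` and the roots of unity of order dividing the
part of `|G|` prime to `p`.
(1) The alternating sum, over the chains `C` of `p`-subgroups of `G / N`, of the numbers of the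
irreducible characters of `G_C` over `θ` with values fixed by `s`, is equal to
`k(G / N) - χ₂(S_{G/N}^{p+*}, G / N)`.
(2) `KRC_p(G / N)` holds if and only if this alternating sum is `z_p(G / N)`.
(3) If `N` is a `p`-group then every irreducible character of `N` satisfies the condition on degree
and determinant. -/
theorem result (G : Type) [Group G] [Fintype G] (p : ℕ) [Fact p.Prime] (N : Subgroup G)
    [N.Normal] :
    (∀ θ : N → ℂ, PSpec p θ → InvG ⊤ N θ → ∀ s : ℂ ≃+* ℂ, (∀ n, s (θ n) = θ n) →
      (∀ ζ : ℂ, ζ ^ pPrimePart p (Nat.card G) = 1 → s ζ = ζ) →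
      (altQ p ⊤ N (fun σ => (numOver N θ s σ : ℤ)) : ℚ) =
        (Nat.card (ConjClasses (G ⧸ N)) : ℚ) - chi2 p (G ⧸ N) ∧
      (KRC p (G ⧸ N) ↔ altQ p ⊤ N (fun σ => (numOver N θ s σ : ℤ)) =
        (numDefectZero p (G ⧸ N) : ℤ))) ∧
    (IsPGroup p N → ∀ θ : N → ℂ, IsIrr θ → PSpec p θ) := by
  refine ⟨fun θ h1 h2 s h3 h4 => ?_, fun h1 θ h2 => (Pool.Agent.Q24.TP.t_PSP p N).1 h1 θ h2⟩
  have h5 : (fun σ => (numOver N θ s σ : ℤ)) = fun σ => (wQ ⊤ N θ 1 s σ : ℤ) :=
    funext fun σ => by rw [num_eq]
  rw [h5, main2 p N θ h1 h2 s h4 h3]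
  have h6 := Pool.Agent.Q18.KRX.err_eq p (G ⧸ N)
  unfold Pool.Agent.Q18.KRX.err Pool.Agent.Q18.KRX.errZ at h6
  push_cast at h6
  refine ⟨by linarith, ?_⟩
  rw [Pool.Agent.Q18.KRX.krc_iff_err, Pool.Agent.Q18.KRX.err_eq]
  unfold Pool.Agent.Q18.KRX.errZ
  constructor
  · intro h
    have h7 : (numDefectZero p (G ⧸ N) : ℤ) - Pool.Agent.Q18.KRX.krSum p (G ⧸ N) = 0 := by
      exact_mod_cast h
    linarith
  · intro h
    rw [h, sub_self, Int.cast_zero]

end Pool.Agent.Results.MP_b6945b_al.CharacterTriples
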