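import Pool.Agent.Q18.KRX.Top
import Pool.Agent.Q18.KRX.Last
import Pool.Agent.Q19.KRX.Ind

/-!
# The error term of the Knörr-Robinson conjecture and normal subgroups of `p`-power index
-/

open scoped Classical

noncomputable section

namespace Pool.Agent.Results.MP_b6945b_al.IndexFormula

open Pool.Agent.Y63.KR (chi2 KRC)
open Pool.Agent.Y63.AWC (numDefectZero)

/-- the error term `D_p(H) = χ₂(S_H^{p+*}, H) - (k(H) - z_p(H))` of the Knörr-Robinson conjecture;
`KRC p H` says that it vanishes. -/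
def err (p : ℕ) (H : Type) [Group H] : ℚ :=
  chi2 p H - ((Nat.card (ConjClasses H) : ℚ) - (numDefectZero p H : ℚ))

/-- `U` is an elementary abelian `p`-group. -/
def IsElementary (p : ℕ) {Γ : Type} [Group Γ] (U : Subgroup Γ) : Prop :=
  (∀ x ∈ U, x ^ p = 1) ∧ ∀ x ∈ U, ∀ y ∈ U, x * y = y * x

/-- the rank of the elementary abelian `p`-group `U`: `|U| = p ^ r` -/
def rank (p : ℕ) {Γ : Type} [Group Γ] (U : Subgroup Γ) : ℕ := (Nat.card U).factorization p

/-- the centraliser of `U` in `G` -/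
abbrev centIn {Γ : Type} [Group Γ] (G U : Subgroup Γ) : Subgroup Γ :=
  G ⊓ Subgroup.centralizer (U : Set Γ)

/-- **The error term of the Knörr-Robinson conjecture and normal subgroups of `p`-power index.**
Let `G` be a normal subgroup of the finite group `Γ` such that `Γ/G` is a `p`-group.

1. `|Γ| D_p(Γ) = ∑_U (-1)^r p^(r(r-1)/2) |C_G(U)| D_p(C_G(U))`, the sum over the elementary abelian
  `p`-subgroups `U` of `Γ` with `G ∩ U = 1`, where `|U| = p^r` (`U = 1` included).
2. If the conjecture holds for the groups `C_G(U)`, `U ≠ 1` elementary abelian with `G ∩ U = 1`,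
  then it holds for `Γ` if and only if it holds for `G`. -/
theorem result (p : ℕ) [Fact p.Prime] (Γ : Type) [Group Γ] [Finite Γ] (G : Subgroup Γ) [G.Normal]
    (hp : IsPGroup p (Γ ⧸ G)) :
    ((Nat.card Γ : ℚ) * err p Γ =
      ∑ᶠ U : Subgroup Γ, if IsElementary p U ∧ G ⊓ U = ⊥ then
        (-1) ^ rank p U * (p : ℚ) ^ (rank p U * (rank p U - 1) / 2) *
          ((Nat.card (centIn G U) : ℚ) * err p (centIn G U)) else 0) ∧
    ((∀ U : Subgroup Γ, IsElementary p U → G ⊓ U = ⊥ → U ≠ ⊥ → KRC p (centIn G U)) →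
      (KRC p Γ ↔ KRC p G)) := by
  have hpr : p.Prime := Fact.out
  have hel : ∀ U : Subgroup Γ, IsElementary p U → IsPGroup p U := by
    intro U hU x
    refine ⟨1, ?_⟩
    rw [pow_one]
    exact Subtype.ext (hU.1 x x.2)
  obtain ⟨h1, h2⟩ := Pool.Agent.Q18.KRX.final Pool.Agent.Q18.KRX.top Pool.Agent.Q19.KRX.ind p Γ G hp
  refine ⟨h1.trans (finsum_congr fun U => ?_), fun h => h2 fun U _ hG hne h3 h4 =>
    h U ⟨h3, h4⟩ hG hne⟩
  by_cases hG : G ⊓ U = ⊥
  · by_cases hU : IsElementary p U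
    · have hmu : Pool.Agent.Q18.KRX.mu p U =
          (-1) ^ rank p U * (p : ℤ) ^ (rank p U * (rank p U - 1) / 2) := if_pos hU
      rw [if_pos ⟨hel U hU, hG⟩, if_pos ⟨hU, hG⟩, hmu]
      push_cast
      rfl
    · have hmu : Pool.Agent.Q18.KRX.mu p U = 0 := if_neg hU
      have h3 : ¬ (IsElementary p U ∧ G ⊓ U = ⊥) := fun h => hU h.1
      rw [if_neg h3, hmu]
      split_ifs
      · rw [Int.cast_zero, zero_mul]
      · rfl
  · rw [if_neg (fun h => hG h.2), if_neg (fun h => hG h.2)]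

end Pool.Agent.Results.MP_b6945b_al.IndexFormula
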