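import Pool.Agent.Q18.TW.Tot

/-!
# The Knörr-Robinson conjecture and the fixed points of twisted Galois actions
-/

open scoped Classical

open Pool.Agent.Y63.KR (conjSub conjSub_one conjSub_mul chi2 KRC)
open Pool.Agent.Y63.AWC (numDefectZero)

noncomputable section

namespace Pool.Agent.Results.MP_b6945b_al.TwistedFixedPoints

/-- `χ` is an irreducible complex character of `H`. -/
def IsIrr {H : Type} [Group H] (χ : H → ℂ) : Prop :=
  ∃ (V : Type) (_ : AddCommGroup V) (_ : Module ℂ V) (_ : FiniteDimensional ℂ V)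
    (ρ : Representation ℂ H V), ρ.IsIrreducible ∧ χ = ρ.character

section

variable {F : Type} [Field F]

/-- `f` is a class function: an element of the centre of the group algebra `F[G]`. -/
def IsClassFun {G : Type} [Group G] (f : G → F) : Prop := ∀ g x : G, f (g * x * g⁻¹) = f x

/-- The product of the group algebra `F[G]`. -/
def conv {G : Type} [Group G] (f g : G → F) : G → F := fun x => ∑ᶠ y : G, f y * g (y⁻¹ * x)

/-- `B` is (the central character of) a `p`-block of `G`: an `F`-algebra homomorphism from the centre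
of `F[G]` to `F`, for `F` algebraically closed of characteristic `p`. -/
structure IsBlock {G : Type} [Group G] (B : (G → F) → F) : Prop where
  add : ∀ f g : G → F, IsClassFun f → IsClassFun g → B (f + g) = B f + B g
  smul : ∀ (a : F) (f : G → F), IsClassFun f → B (a • f) = a * B f
  one : B (Pi.single 1 1) = 1
  mul : ∀ f g : G → F, IsClassFun f → IsClassFun g → B (conv f g) = B f * B g

/-- The reduction of an algebraic integer, extended by zero to all complex numbers. -/
def redC (red : integralClosure ℤ ℂ →+* F) (a : ℂ) : F :=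
  if h : IsIntegral ℤ a then red ⟨a, h⟩ else 0

/-- The value of the reduction `λ_χ` of the central character of `χ` at the class function `f`:
`∑_C f(C) · red (|C| χ(C) / χ(1))`, the sum over the conjugacy classes `C` of `H`. -/
def centralValue (red : integralClosure ℤ ℂ →+* F) {H : Type} [Group H] (χ : H → ℂ)
    (f : H → F) : F :=
  ∑ᶠ C : ConjClasses H, f C.out * redC red ((Nat.card C.carrier : ℂ) * χ C.out / χ 1)

end

section

variable {G : Type} [Group G]

/-- A chain `D_0 = Z < D_1 < ⋯ < D_n` of `p`-subgroups, recorded by the set `{D_1, …, D_n}`. -/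
structure IsChainOver (p : ℕ) (Z : Subgroup G) (d : Set (Subgroup G)) : Prop where
  chain : IsChain (· ≤ ·) d
  isPGroup : ∀ P ∈ d, IsPGroup p P
  lt : ∀ P ∈ d, Z < P

/-- The stabiliser `G_d = ⋂ N_G(D_i)` (here `Z = D_0` is normal). -/
def stab (d : Set (Subgroup G)) : Subgroup G := ⨅ P ∈ d, Subgroup.normalizer (P : Set G)

/-- Conjugacy of chains. -/
def conjSetoid (p : ℕ) (Z : Subgroup G) : Setoid {d : Set (Subgroup G) // IsChainOver p Z d} where
  r d e := ∃ g : G, e.1 = (fun P => P.map (MulAut.conj g).toMonoidHom) '' d.1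
  iseqv :=
    { refl := fun d => ⟨1, by
        have : (fun P : Subgroup G => P.map (MulAut.conj (1 : G)).toMonoidHom) = id :=
          funext conjSub_one
        rw [this, Set.image_id]⟩
      symm := by
        rintro d e ⟨g, hg⟩
        refine ⟨g⁻¹, ?_⟩
        rw [hg, ← Set.image_comp]
        have : (fun P : Subgroup G => P.map (MulAut.conj g⁻¹).toMonoidHom) ∘
            (fun P : Subgroup G => P.map (MulAut.conj g).toMonoidHom) = id := by
          funext P
          change conjSub g⁻¹ (conjSub g P) = P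
          rw [← conjSub_mul, inv_mul_cancel, conjSub_one]
        rw [this, Set.image_id]
      trans := by
        rintro d e f ⟨g, hg⟩ ⟨h, hh⟩
        refine ⟨h * g, ?_⟩
        rw [hh, hg, ← Set.image_comp]
        congr 1
        exact (funext fun P => conjSub_mul h g P).symm }

/-- The alternating sum `∑_d (-1)^|d| n(d)` over representatives `d` of the conjugacy classes of the
chains `Z = D_0 < D_1 < ⋯ < D_n` of `p`-subgroups of `G`. -/
def altSum (p : ℕ) (Z : Subgroup G) (n : Set (Subgroup G) → ℕ) : ℤ :=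
  ∑ᶠ c : Quotient (conjSetoid p Z), (-1) ^ (Quotient.out c).1.ncard *
    (n (Quotient.out c).1 : ℤ)

/-- `θ = l · θ^s`: the character `θ` of a subgroup is fixed by the automorphism `s` of `ℂ` followed
by the multiplication with (the restriction of) the linear character `l` of `G`. -/
def IsFixed (l : G →* ℂˣ) (s : ℂ ≃+* ℂ) {H : Subgroup G} (θ : H → ℂ) : Prop :=
  ∀ x : H, (l x : ℂ) * s (θ x) = θ x

/-- The number of the `θ ∈ Irr(G_d)` with `θ = l · θ^s`. -/
def numFixed (l : G →* ℂˣ) (s : ℂ ≃+* ℂ) (d : Set (Subgroup G)) : ℕ :=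
  Nat.card {θ : stab d → ℂ // IsIrr θ ∧ IsFixed l s θ}

variable {F : Type} [Field F]

/-- The number `k(B_d)` of the `χ ∈ Irr(G_d)` with `bl(χ)^G = B`, that is, `λ_χ(f|_{G_d}) = B(f)`
for all class functions `f` of `G`. -/
def numBlock (red : integralClosure ℤ ℂ →+* F) (B : (G → F) → F) (d : Set (Subgroup G)) : ℕ :=
  Nat.card {χ : stab d → ℂ // IsIrr χ ∧
    ∀ f : G → F, IsClassFun f → centralValue red χ (fun x => f x) = B f}

/-- The number of the `θ ∈ Irr(G_d)` with `bl(θ)^G = B` and `θ = l · θ^s`. -/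
def numFixedBlock (red : integralClosure ℤ ℂ →+* F) (B : (G → F) → F) (l : G →* ℂˣ)
    (s : ℂ ≃+* ℂ) (d : Set (Subgroup G)) : ℕ :=
  Nat.card {θ : stab d → ℂ // IsIrr θ ∧ IsFixed l s θ ∧
    ∀ f : G → F, IsClassFun f → centralValue red θ (fun x => f x) = B f}

end

/-- **The Knörr-Robinson conjecture and the fixed points of twisted Galois actions.** Let `Z` be a
normal `p`-subgroup of the finite group `G`, `l` a linear character of `G` of `p`-power order with
`Z ≤ ker l`, and `s` an automorphism of `ℂ` which fixes the `|G|`-th roots of unity of order dividing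
`k · exp(Z)` for some `k` prime to `p`. Sums over the classes of the chains which begin with `Z`.

1. The alternating sum of the numbers of the `θ ∈ Irr(G_d)` with `θ = l θ^s` is equal to the
  alternating sum of the `k(G_d)`.
2. For `Z = 1` it is equal to `k(G) - χ₂(S_G^{p+*}, G)`, and `KRC_p(G)` holds if and only if it is
  equal to the number of the characters of `p`-defect zero.
3. The equation 1. holds for every `p`-block `B` of `G` and the `θ ∈ Irr(G_d)` with `bl(θ)^G = B`. -/
theorem result (p : ℕ) [Fact p.Prime] (G : Type) [Group G] [Finite G] (Z : Subgroup G)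
    (hZn : Z.Normal) (hZ : IsPGroup p Z) (l : G →* ℂˣ) (n : ℕ) (hl : l ^ p ^ n = 1)
    (hZl : Z ≤ l.ker) (s : ℂ ≃+* ℂ) (hs : ∀ ζ : ℂ, ζ ^ Nat.card G = 1 →
      (∃ k : ℕ, ¬ p ∣ k ∧ ζ ^ (k * Monoid.exponent Z) = 1) → s ζ = ζ) :
    altSum p Z (numFixed l s) = altSum p Z (fun d => Nat.card (ConjClasses (stab d))) ∧
    (Z = ⊥ → (altSum p Z (numFixed l s) : ℚ) = (Nat.card (ConjClasses G) : ℚ) - chi2 p G ∧
      (KRC p G ↔ altSum p Z (numFixed l s) = (numDefectZero p G : ℤ))) ∧
    ∀ (F : Type) [Field F] [IsAlgClosed F] [CharP F p] (red : integralClosure ℤ ℂ →+* F)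
      (B : (G → F) → F), IsBlock B →
      altSum p Z (numFixedBlock red B l s) = altSum p Z (numBlock red B) := by
  have hfin : Fintype {σ : Set (Subgroup G) // Pool.Agent.Q18.K.CH p ⊤ Z σ} := Fintype.ofFinite _
  have hch : ∀ d : Set (Subgroup G), IsChainOver p Z d ↔ Pool.Agent.Q18.K.CH p ⊤ Z d := fun d =>
    ⟨fun h => ⟨h.chain, h.isPGroup, fun _ _ => le_top, h.lt⟩, fun h => ⟨h.chain, h.isp, h.lt⟩⟩
  have hpos : (Nat.card G : ℤ) ≠ 0 := by exact_mod_cast Nat.card_pos.ne'
  -- the sums over the classes and the sums over all chains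
  have key : ∀ (m : Set (Subgroup G) → ℕ) (f : Subgroup G → ℕ),
      (∀ d, m d = f (Pool.Agent.Y63.KR.chainStabilizer d)) →
      (∀ (g : G) (H : Subgroup G), f (conjSub g H) = f H) →
      (Nat.card G : ℤ) * altSum p Z m =
        ∑ σ : {σ : Set (Subgroup G) // Pool.Agent.Q18.K.CH p ⊤ Z σ}, (-1) ^ σ.1.ncard *
          ((Nat.card (Pool.Agent.Y63.KR.chainStabilizer σ.1) : ℤ) *
            (f (Pool.Agent.Y63.KR.chainStabilizer σ.1) : ℤ)) := by
    intro m f h hf
    have e1 := Pool.Agent.Q18.K.card_mul_cls (p := p) hZn (fun H => (f H : ℤ))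
      (fun g H => by rw [hf])
    have e2 := Pool.Agent.Q18.K.cls_eq (IsChainOver p Z) (Pool.Agent.Q18.K.CH p ⊤ Z) hch
      (fun _ h => h.chain) (fun g _ h => h.conj hZn g) (conjSetoid p Z) (fun _ _ => Iff.rfl)
      (Pool.Agent.Q18.K.chS p Z) (fun _ _ => Iff.rfl)
      (fun H => (f H : ℤ)) (fun g H => by rw [hf])
    rw [← e1]
    congr 1
    unfold altSum
    refine Eq.trans (finsum_congr fun c => ?_) e2
    rw [h]
  have k1 := key (numFixed l s) (Pool.Agent.Q18.TW.NT (Pool.Agent.Q18.TW.FX l s))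
    (fun d => rfl) (Pool.Agent.Q18.TW.nt_conj _ (Pool.Agent.Q18.TW.fx_conj l s))
  have k2 := key (fun d => Nat.card (ConjClasses (stab d)))
    (Pool.Agent.Q18.TW.NT (fun _ _ => True))
    (fun d => (Pool.Agent.Q18.TW.nt_card _).symm)
    (Pool.Agent.Q18.TW.nt_conj _ (fun _ _ _ _ _ _ _ => trivial))
  have m1 : altSum p Z (numFixed l s) = altSum p Z (fun d => Nat.card (ConjClasses (stab d))) := by
    apply mul_left_cancel₀ hpos
    rw [k1, k2]
    exact Pool.Agent.Q18.TW.at_main hZ hl hZl hs
  refine ⟨m1, ?_, ?_⟩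
  · rintro rfl
    have h1 : altSum p (⊥ : Subgroup G) (numFixed l s) =
        Pool.Agent.Y63.KR.alternatingSum p G (fun H => (Nat.card (ConjClasses H) : ℤ)) := by
      rw [m1]
      exact Pool.Agent.Q18.K.cls_eq (IsChainOver p (⊥ : Subgroup G))
        (Pool.Agent.Y63.KR.IsPChain p)
        (fun d => ⟨fun h => ⟨h.chain, h.isPGroup, fun P hP => (h.lt P hP).ne'⟩,
          fun h => ⟨h.chain, h.isPGroup, fun P hP => bot_lt_iff_ne_bot.2 (h.ne_bot P hP)⟩⟩)
        (fun _ h => h.chain) (fun g _ h => h.conj g) (conjSetoid p ⊥) (fun _ _ => Iff.rfl)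
        (Pool.Agent.Y63.KR.chainSetoid p G) (fun _ _ => Iff.rfl)
        (fun H => (Nat.card (ConjClasses H) : ℤ)) (fun g H => by
          rw [← Pool.Agent.Q18.TW.nt_card, ← Pool.Agent.Q18.TW.nt_card,
            Pool.Agent.Q18.TW.nt_conj _ (fun _ _ _ _ _ _ _ => trivial)])
    have h2 := Pool.Agent.Y63.KR.altSum_classes (p := p) (G := G)
    rw [← h1] at h2
    refine ⟨h2, ?_⟩
    unfold KRC
    constructor
    · intro h3
      rw [h3] at h2
      have h4 : (altSum p (⊥ : Subgroup G) (numFixed l s) : ℚ) = (numDefectZero p G : ℚ) := by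
        rw [h2]
        ring
      exact_mod_cast h4
    · intro h3
      rw [h3] at h2
      push_cast at h2
      linarith
  · intro F _ _ _ red B hB
    have hB' : Pool.Agent.Y63.NV.IsBlock B := ⟨hB.add, hB.smul, hB.one, hB.mul⟩
    have k3 := key (numFixedBlock red B l s)
      (Pool.Agent.Q18.PR.NL red B (Pool.Agent.Q18.TW.FX l s)) (fun d => rfl)
      (Pool.Agent.Q18.PR.nl_conj red B _ (Pool.Agent.Q18.TW.fx_conj l s))
    have k4 := key (numBlock red B) (Pool.Agent.Q18.PR.NL red B (fun _ _ => True)) (fun d => by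
        unfold numBlock Pool.Agent.Q18.PR.NL
        exact Nat.card_congr (Equiv.subtypeEquivRight fun χ => and_congr_right fun _ =>
          ⟨fun h => ⟨trivial, h⟩, fun h => h.2⟩))
      (Pool.Agent.Q18.PR.nl_conj red B _ (fun _ _ _ _ _ _ _ => trivial))
    apply mul_left_cancel₀ hpos
    rw [k3, k4]
    exact Pool.Agent.Q18.TW.ab_main red hZ hl hZl hs hB'

end Pool.Agent.Results.MP_b6945b_al.TwistedFixedPoints
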