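import Pool.Agent.Q17.WR.Fin3

/-!
# The Knörr-Robinson conjecture for wreath products
-/

set_option autoImplicit false

open scoped Classical

noncomputable section

namespace Pool.Agent.Results.MP_b6945b_al.WreathProducts

open Pool.Agent.Y63.KR (chi2 KRC)
open Pool.Agent.Y63.AWC (IsIrreducibleCharacter numDefectZero)

/-- the error term `D_p(H) = χ₂(S_H^{p+*}, H) - (k(H) - z_p(H))` of the Knörr-Robinson conjecture;
`KRC p H` says that it vanishes. -/
def err (p : ℕ) (H : Type) [Group H] : ℚ :=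
  chi2 p H - ((Nat.card (ConjClasses H) : ℚ) - (numDefectZero p H : ℚ))

/-- the wreath product of `G` with the group `A` acting on `Ω`: the semidirect product of `Ω → G` and
`A`, with `(a f)(ω) = f (a⁻¹ ω)` -/
abbrev Wr (G A Ω : Type) [Group G] [Group A] [MulAction A Ω] : Type :=
  (Ω → G) ⋊[mulAutArrow (G := A) (A := Ω) (M := G)] A

/-- the cyclic group of order `r` -/
abbrev Cy (r : ℕ) : Type := Multiplicative (ZMod r)

/-- the irreducible characters of `G` of `p`-defect zero -/
abbrev Dz (p : ℕ) (G : Type) [Group G] : Type :=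
  {χ : G → ℂ // IsIrreducibleCharacter χ ∧
    ∃ n : ℕ, χ 1 = (n : ℂ) ∧ n.factorization p = (Nat.card G).factorization p}

/-- the stabiliser in `A` of the function `f` -/
def Sf {A Ω X : Type} [Group A] [MulAction A Ω] (f : Ω → X) : Subgroup A where
  carrier := {a | ∀ ω, f (a • ω) = f ω}
  one_mem' := fun ω => by rw [one_smul]
  mul_mem' := fun {a b} ha hb ω => by rw [mul_smul, ha, hb]
  inv_mem' := fun {a} ha ω => by rw [← ha (a⁻¹ • ω), smul_inv_smul]

lemma err_def (p : ℕ) [Fact p.Prime] (H : Type) [Group H] [Finite H] :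
    err p H = (Pool.Agent.Q18.KRX.errZ p H : ℚ) := Pool.Agent.Q18.KRX.err_eq p H

lemma dvd_of (p m : ℕ) [Fact p.Prime] (H : Type) [Group H] [Finite H]
    (h : ∃ k : ℤ, err p H = (m : ℚ) * k) : (m : ℤ) ∣ Pool.Agent.Q18.KRX.errZ p H := by
  obtain ⟨k, hk⟩ := h
  rw [err_def] at hk
  refine ⟨k, ?_⟩
  exact_mod_cast hk

/-- **The Knörr-Robinson conjecture for wreath products.** Let `p` be a prime and
`D(H) = χ₂ - (k(H) - z_p(H))`, so that `KRC_p(H)` says `D(H) = 0`. All groups are finite.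

1. Let `r` be a prime (`r = p` is allowed), `c = -1` for `r = p` and `c = r² - 1` otherwise, and
  `x = k(G) - χ₂(S_G^{p+*}, G)`. For the wreath product of `G` with the cyclic group of order `r` the
  number corresponding to `x` is `(x^r + c x)/r`, and the number of characters of defect zero is
  `(z^r + c z)/r`, `z = z_p(G)`.
2. If `KRC_p(G)` holds and `A` acts on `Ω` then `|A| D(G ≀ A) = ∑_f |A_f| D(A_f)`, where `f` runs over
  the functions from `Ω` to the set of characters of `G` of defect zero. So `KRC_p(G ≀ A)` holds if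
  `KRC_p` holds for `G` and all `A_f`.
3. If `KRC_p(G)` holds and `G` has no character of defect zero then `KRC_p(G ≀ A)` holds for every group
  `A` (`Ω` nonempty).
4. If `KRC_p(G)` holds and `G` has exactly one character of defect zero then `KRC_p(G ≀ A)` holds if
  and only if `KRC_p(A)` holds.
5. Let `X` be a class of finite groups closed under the wreath product with the cyclic group of order
  `r`, `r` a prime. If `r` divides `D(H)` for all `H` in `X` then `KRC_p` holds for all `H` in `X`.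
6. If `m ≥ 2` and `D(H)` is divisible by `m` for all finite groups `H` then `KRC_p` holds for all finite
  groups. -/
theorem result (p : ℕ) [Fact p.Prime] :
    (∀ (r : ℕ) [Fact r.Prime] (G : Type) [Group G] [Finite G],
      (r : ℚ) * ((Nat.card (ConjClasses (Wr G (Cy r) (Cy r))) : ℚ) -
          chi2 p (Wr G (Cy r) (Cy r))) =
        ((Nat.card (ConjClasses G) : ℚ) - chi2 p G) ^ r +
          (if p = r then -1 else (r : ℚ) ^ 2 - 1) *
            ((Nat.card (ConjClasses G) : ℚ) - chi2 p G) ∧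
      (r : ℚ) * (numDefectZero p (Wr G (Cy r) (Cy r)) : ℚ) = (numDefectZero p G : ℚ) ^ r +
        (if p = r then -1 else (r : ℚ) ^ 2 - 1) * (numDefectZero p G : ℚ)) ∧
    (∀ (G A Ω : Type) [Group G] [Group A] [MulAction A Ω] [Finite G] [Finite A] [Finite Ω],
      KRC p G →
      (Nat.card A : ℚ) * err p (Wr G A Ω) =
        ∑ᶠ f : Ω → Dz p G, (Nat.card (Sf (A := A) f) : ℚ) * err p (Sf (A := A) f) ∧
      ((∀ f : Ω → Dz p G, KRC p (Sf (A := A) f)) → KRC p (Wr G A Ω)) ∧
      (numDefectZero p G = 0 → Nonempty Ω → KRC p (Wr G A Ω)) ∧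
      (numDefectZero p G = 1 → (KRC p (Wr G A Ω) ↔ KRC p A))) ∧
    (∀ (r : ℕ) [Fact r.Prime] (X : ∀ (H : Type) [Group H], Prop),
      (∀ (H : Type) [Group H] [Finite H], X H → X (Wr H (Cy r) (Cy r))) →
      (∀ (H : Type) [Group H] [Finite H], X H → ∃ k : ℤ, err p H = (r : ℚ) * k) →
      ∀ (H : Type) [Group H] [Finite H], X H → KRC p H) ∧
    ∀ m : ℕ, 2 ≤ m → (∀ (H : Type) [Group H] [Finite H], ∃ k : ℤ, err p H = (m : ℚ) * k) →
      ∀ (H : Type) [Group H] [Finite H], KRC p H := by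
  refine ⟨fun r _ G _ _ => Pool.Agent.Q17.WR.kry' p r G, ?_, ?_, ?_⟩
  · intro G A Ω _ _ _ _ _ _ h
    refine ⟨?_, Pool.Agent.Q17.WR.wr3 p G A Ω h, fun hz hΩ => Pool.Agent.Q17.WR.wr4 p G A Ω h hz hΩ,
      fun hz => Pool.Agent.Q17.WR.wr5 p G A Ω h hz⟩
    have h1 := congrArg (fun z : ℤ => (z : ℚ)) (Pool.Agent.Q17.WR.wr2 p G A Ω h)
    have hfin : Finite (Ω → Dz p G) := by
      have : Finite (Dz p G) := Pool.Agent.Q17.WR.dz_fin p G
      infer_instance
    have h2 : ((∑ᶠ f : Ω → Dz p G, (Nat.card (Sf (A := A) f) : ℤ) *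
        Pool.Agent.Q18.KRX.errZ p (Sf (A := A) f) : ℤ) : ℚ) =
        ∑ᶠ f : Ω → Dz p G, (Nat.card (Sf (A := A) f) : ℚ) * err p (Sf (A := A) f) := by
      have : Fintype (Ω → Dz p G) := Fintype.ofFinite _
      rw [finsum_eq_sum_of_fintype, finsum_eq_sum_of_fintype, Int.cast_sum]
      refine Finset.sum_congr rfl fun f _ => ?_
      rw [err_def]
      push_cast
      rfl
    rw [err_def, ← h2]
    have h3 : (Nat.card A : ℚ) * (Pool.Agent.Q18.KRX.errZ p (Wr G A Ω) : ℚ) =
        (((Nat.card A : ℤ) * Pool.Agent.Q18.KRX.errZ p (Wr G A Ω) : ℤ) : ℚ) := by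
      push_cast
      rfl
    rw [h3]
    exact h1
  · intro r _ X hX h H _ _ hH
    exact Pool.Agent.Q17.WR.wr6 Pool.Agent.Q17.WR.kry p r X hX
      (fun H _ _ hH => dvd_of p r H (h H hH)) H hH
  · intro m hm h H _ _
    exact Pool.Agent.Q17.WR.wr7 Pool.Agent.Q17.WR.kry p m hm (fun H _ _ => dvd_of p m H (h H)) H

end Pool.Agent.Results.MP_b6945b_al.WreathProducts
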